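import Pool.Agent.Helper211.ES.GH

set_option autoImplicit false

namespace Pool.Agent.Results.MP_df0165_co.HalfPacking

/-- For every tree `T` with `m ≥ 1` edges, every `2m`-regular graph `G` on `n` vertices contains
at least `(m+1)n/(2m)` pairwise edge-disjoint copies of `T`; they cover more than half of `E(G)`. -/
theorem result (V W : Type*) [Fintype V] [Fintype W] (T : SimpleGraph W) (hT : T.IsTree)
    (hm : T.edgeSet.ncard ≠ 0) (G : SimpleGraph V) [DecidableRel G.Adj]
    (hG : G.IsRegularOfDegree (2 * T.edgeSet.ncard)) :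
    ∃ (k : ℕ) (f : Fin k → (W ↪ V)),
      (∀ i, T.map (f i) ≤ G) ∧ (∀ i j, i ≠ j → Disjoint (T.map (f i)) (T.map (f j))) ∧
        (T.edgeSet.ncard + 1) * Fintype.card V ≤ 2 * T.edgeSet.ncard * k :=
  ES211.half_decomposition T hT G hG hm

end Pool.Agent.Results.MP_df0165_co.HalfPacking
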